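import Pool.Agent.H18.XZ.TB

/-!
Board exz (MP_0f8dca_lc), row BLD: a question is rarely not a decision tree over the live rows.
-/

set_option autoImplicit false

namespace Pool.Agent.H86.XZ

open Finset Pool.Agent.H70.OQ Pool.Agent.H66.IQ Pool.Agent.H66.AV Pool.Agent.H18.XZ

theorem ic_le_of {p r : Prop} (h : p → r) : ic p ≤ ic r := by
  unfold ic
  by_cases hp : p
  · rw [if_pos hp, if_pos (h hp)]
  · rw [if_neg hp]
    split_ifs <;> norm_num

theorem pf_BLD (hTDL : T_TDL) (hISO : T_ISO) (hFML : Pool.Agent.H70.EI.T_FML) : T_BLD := by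
  classical
  intro R _ _ n k e he z Q hQ t w G q hw htw hq hwq hG hGY c hc
  obtain ⟨φ, ψ, hφ⟩ := hISO R (Fin n → Bool) (Ys n) k
  obtain ⟨O, hO⟩ : ∃ O : (Node (R × (Fin n → Bool)) (Ys n) k → Bool) → List Bool → Bool,
      O = fun Y => Q (fun x => if h : ∃ r, e r = x then fun p => Y (ψ (h.choose, p))
        else tbl z x) := ⟨_, rfl⟩
  have hLit : Pool.Agent.H70.EI.Lit O := by
    intro v
    rcases hQ v with ⟨b, hb⟩ | ⟨x, p, hp⟩
    · exact Or.inl ⟨b, fun y => by rw [hO]; exact hb _⟩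
    · by_cases h : ∃ r, e r = x
      · refine Or.inr ⟨ψ (h.choose, p), fun y => ?_⟩
        rw [hO]
        simp only [hp]
        rw [dif_pos h]
      · refine Or.inl ⟨tbl z x p, fun y => ?_⟩
        rw [hO]
        simp only [hp]
        rw [dif_neg h]
  obtain ⟨f, hf, hfO⟩ := hFML _ k c.1 O c.2 t hc hLit
  have hT := hTDL (R × (Fin n → Bool)) (Ys n) k (2 ^ t) t w G q hw htw hq hwq hG hGY f hf
  have hcard : Fintype.card (Hid (R × (Fin n → Bool)) (Ys n) k) =
      Fintype.card (R → Hid (Fin n → Bool) (Ys n) k) := (Fintype.card_congr φ).symm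
  rw [hcard] at hT
  have hq1 : q ≤ 1 := by
    have hw1r : (1 : ℝ) ≤ w := by exact_mod_cast hw
    nlinarith
  refine le_trans (sum_le_sum fun l _ => mul_le_mul_of_nonneg_left ?_ ?_) hT
  · rw [← Equiv.sum_comp φ]
    refine sum_le_sum fun H _ => ic_le_of fun hn hD => hn ?_
    obtain ⟨T, hT1, hT2⟩ := hD
    refine ⟨T, hT1, fun y hy => ?_⟩
    rw [hT2 y hy, hfO]
    have h1 : O (sv y k (φ H)) = Q (tby e z H y) := by
      rw [hO]
      simp only
      congr 1
      funext x
      unfold tby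
      by_cases h : ∃ r, e r = x
      · rw [dif_pos h, dif_pos h]
        funext p
        exact hφ y H h.choose p
      · rw [dif_neg h, dif_neg h]
    rw [h1]
  · unfold lw
    exact prod_nonneg fun a _ => by split_ifs <;> linarith

end Pool.Agent.H86.XZ
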