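import Pool.Agent.H18.XZ.TA

/-!
Board exz (MP_0f8dca_lc), row CUB: the inequality on a cube.
-/

set_option autoImplicit false

namespace Pool.Agent.H86.XZ

open Finset Pool.Agent.H70.OQ Pool.Agent.H18.XZ
open Pool.Agent.H66.AV (sg)

theorem icp {p : Prop} (h : p) : ic p = 1 := by unfold ic; rw [if_pos h]

theorem icn {p : Prop} (h : ¬ p) : ic p = 0 := by unfold ic; rw [if_neg h]

theorem ic0 (p : Prop) : 0 ≤ ic p := by
  by_cases h : p
  · rw [icp h]; norm_num
  · rw [icn h]

section

variable {ι P : Type} [Fintype P]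

/-- the masses of two different options -/
theorem elim_le (a : P → ℝ) (ha : ∀ u, 0 ≤ a u) (x y : Option P) (h : x ≠ y) :
    x.elim 0 a + y.elim 0 a ≤ ∑ u, a u := by
  classical
  rcases x with _ | u <;> rcases y with _ | w
  · exact absurd rfl h
  · simpa using single_le_sum (f := a) (fun u _ => ha u) (mem_univ w)
  · simpa using single_le_sum (f := a) (fun u _ => ha u) (mem_univ u)
  · have huw : u ≠ w := fun e => h (by rw [e])
    calc (some u).elim 0 a + (some w).elim 0 a = ∑ z ∈ {u, w}, a z := by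
          rw [sum_pair huw]; rfl
      _ ≤ _ := sum_le_sum_of_subset_of_nonneg (subset_univ _) fun z _ _ => ha z

variable [Fintype ι] [DecidableEq ι]

open Classical in
/-- the mass of the other rows -/
theorem cm_le (a : ι → P → ℝ) (ha : ∀ r u, 0 ≤ a r u) (c c' : ι → Option P) (t : ι) :
    cm a c c' ≤ (if c t = c' t then 0 else (c t).elim 0 (a t) + (c' t).elim 0 (a t)) +
      ∑ t' ∈ univ.erase t, ∑ u, a t' u := by
  classical
  unfold cm
  rw [← add_sum_erase univ _ (mem_univ t)]
  refine add_le_add (le_of_eq ?_) (sum_le_sum fun r _ => ?_)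
  · congr
  · by_cases h : c r = c' r
    · rw [if_pos h]
      exact sum_nonneg fun u _ => ha r u
    · rw [if_neg h]
      exact elim_le (a r) (ha r) _ _ h

theorem pf_CUB (hHFS : T_HFS) (hWTS : T_WTS) (hEXM : T_EXM) : Pool.Agent.H18.XZ.T_CUB := by
  classical
  intro ι P _ _ _ _ L M W ε v al hM hM1 hε hε1 hW hv hal hals hcm
  have hn0 : (0 : ℝ) ≤ Fintype.card ι := Nat.cast_nonneg _
  have hLn : ∀ t, (L t).Nonempty := fun t => card_pos.1 (by have := hM t; omega)
  obtain ⟨hw1, hw0, hws, hwF⟩ := hWTS ι P L hLn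
  have hR0 : (0 : ℝ) ≤ 3 * Real.exp (-(ε ^ 2 * Fintype.card ι / 8)) := by positivity
  -- the light configurations
  obtain ⟨S, hS⟩ : ∃ S : Finset (ι → Bool × P), S = univ.filter fun ω => wt L ω ≠ 0 ∧
      ∀ t, ∑ t' ∈ univ.erase t, ∑ u, al t (rem t (cf ω)) t' u ≤ ε / 4 := ⟨_, rfl⟩
  have hSm : ∀ ω, ω ∈ S ↔ wt L ω ≠ 0 ∧
      ∀ t, ∑ t' ∈ univ.erase t, ∑ u, al t (rem t (cf ω)) t' u ≤ ε / 4 := by
    intro ω
    rw [hS]
    simp
  rcases S.eq_empty_or_nonempty with hSe | hSn
  · refine le_trans (le_of_eq (sum_eq_zero fun ω _ => ?_)) hR0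
    by_cases h0 : wt L ω = 0
    · rw [h0, zero_mul]
    · rw [icn, mul_zero]
      rintro ⟨h1, -⟩
      have := (hSm ω).2 ⟨h0, h1⟩
      rw [hSe] at this
      exact absurd this (notMem_empty _)
  have hmax : ∀ t, ∃ ω' ∈ S, ∀ ω ∈ S, v t (rem t (cf ω)) ≤ v t (rem t (cf ω')) := fun t =>
    exists_max_image S (fun ω => v t (rem t (cf ω))) hSn
  choose o ho hmo using hmax
  have hok : ∀ ω ∈ S, Okc L (cf ω) := by
    intro ω hω r u hr
    have h1 := hws ω ((hSm ω).1 hω).1 r
    unfold cf at hr
    by_cases hb : (ω r).1 = true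
    · rw [if_pos hb] at hr
      cases hr
      exact h1
    · rw [if_neg hb] at hr
      exact absurd hr (by simp)
  have hokr : ∀ ω ∈ S, ∀ t, Okc L (rem t (cf ω)) := by
    intro ω hω t r u hr
    unfold rem at hr
    by_cases hrt : r = t
    · rw [hrt, Function.update_self] at hr
      exact absurd hr (by simp)
    · rw [Function.update_of_ne hrt] at hr
      exact hok ω hω r u hr
  have hrt : ∀ (t : ι) (c : ι → Option P), rem t c t = none := fun t c => by
    unfold rem
    rw [Function.update_self]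
  -- the values at the light configurations
  have hlow : ∀ ω ∈ S, ∀ t, v t (rem t (cf (o t))) - ε / 4 ≤ v t (rem t (cf ω)) := by
    intro ω hω t
    have h1 := hcm t (rem t (cf (o t))) (rem t (cf ω)) (hokr _ (ho t) t) (hokr ω hω t)
    have h2 := cm_le (al t (rem t (cf (o t)))) (hal t _) (rem t (cf (o t))) (rem t (cf ω)) t
    rw [if_pos (by rw [hrt, hrt])] at h2
    have h3 := ((hSm _).1 (ho t)).2 t
    linarith
  have hlow2 : ∀ ω ∈ S, ∀ t, (ω t).1 = true →
      v t (rem t (cf (o t))) - ε / 4 - al t (rem t (cf (o t))) t (ω t).2 ≤ v t (cf ω) := by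
    intro ω hω t hb
    have h1 := hcm t (rem t (cf (o t))) (cf ω) (hokr _ (ho t) t) (hok ω hω)
    have h2 := cm_le (al t (rem t (cf (o t)))) (hal t _) (rem t (cf (o t))) (cf ω) t
    have hcf : cf ω t = some (ω t).2 := by
      unfold cf
      rw [if_pos hb]
    rw [hrt, hcf, if_neg (by simp)] at h2
    have h3 := ((hSm _).1 (ho t)).2 t
    simp only [Option.elim_none, Option.elim_some, zero_add] at h2
    linarith
  -- the two events
  obtain ⟨g, hg⟩ : ∃ g : ι → P → ℝ, g = fun t u => min 1 (al t (rem t (cf (o t))) t u) := ⟨_, rfl⟩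
  obtain ⟨c, hc⟩ : ∃ c : ι → ℝ, c = fun t => v t (rem t (cf (o t))) - 1 / 2 := ⟨_, rfl⟩
  obtain ⟨μ, hμ⟩ : ∃ μ : ℝ, μ = ε / 4 * Fintype.card ι := ⟨_, rfl⟩
  have hμ0 : 0 ≤ μ := by rw [hμ]; positivity
  have hcc : ∀ i, |c i| ≤ 1 / 2 := by
    intro i
    rw [hc, abs_le]
    have := hv i (rem i (cf (o i)))
    constructor <;> simp only <;> linarith
  have hev : ∀ ω, wt L ω * ic ((∀ t, ∑ t' ∈ univ.erase t, ∑ u, al t (rem t (cf ω)) t' u ≤ ε / 4) ∧
      (ε / 2 * Fintype.card ι ≤ |e0 v ω| ∨ ε / 2 * Fintype.card ι ≤ e1 v ω)) ≤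
      wt L ω * ic (μ ≤ |∑ i, sg (ω i).1 * c i|) + wt L ω * ic (μ ≤ ∑ i, g i (ω i).2) := by
    intro ω
    have hr : 0 ≤ wt L ω * ic (μ ≤ |∑ i, sg (ω i).1 * c i|) +
        wt L ω * ic (μ ≤ ∑ i, g i (ω i).2) :=
      add_nonneg (mul_nonneg (hw0 ω) (ic0 _)) (mul_nonneg (hw0 ω) (ic0 _))
    by_cases hE : (∀ t, ∑ t' ∈ univ.erase t, ∑ u, al t (rem t (cf ω)) t' u ≤ ε / 4) ∧
      (ε / 2 * Fintype.card ι ≤ |e0 v ω| ∨ ε / 2 * Fintype.card ι ≤ e1 v ω)
    swap
    · rw [icn hE, mul_zero]
      exact hr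
    by_cases hz : wt L ω = 0
    · rw [hz]
      simp
    have hω : ω ∈ S := (hSm ω).2 ⟨hz, hE.1⟩
    rw [icp hE, mul_one]
    rcases hE.2 with h0 | h1
    · have h2 : μ ≤ |∑ i, sg (ω i).1 * c i| := by
        have h3 : |e0 v ω - ∑ i, sg (ω i).1 * c i| ≤ ε / 4 * Fintype.card ι := by
          unfold e0
          rw [← sum_sub_distrib]
          refine (abs_sum_le_sum_abs _ _).trans ?_
          calc ∑ i, |sg (ω i).1 * (v i (rem i (cf ω)) - 1 / 2) - sg (ω i).1 * c i| ≤
              ∑ _i : ι, ε / 4 := by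
                refine sum_le_sum fun i _ => ?_
                rw [← mul_sub, abs_mul]
                have h4 : |sg (ω i).1| = 1 := by
                  unfold sg
                  split_ifs <;> norm_num
                rw [h4, one_mul, hc, abs_le]
                have h5 := hlow ω hω i
                have h6 := hmo i ω hω
                constructor <;> simp only <;> linarith
            _ = ε / 4 * Fintype.card ι := by
                rw [sum_const, card_univ, nsmul_eq_mul, mul_comm]
        have h4 := abs_sub_abs_le_abs_sub (e0 v ω) (∑ i, sg (ω i).1 * c i)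
        rw [hμ]
        linarith
      rw [icp h2, mul_one]
      have := mul_nonneg (hw0 ω) (ic0 (μ ≤ ∑ i, g i (ω i).2))
      linarith
    · have h2 : μ ≤ ∑ i, g i (ω i).2 := by
        have h3 : e1 v ω ≤ ∑ i, (ε / 4 + g i (ω i).2) := by
          unfold e1
          refine sum_le_sum fun i _ => ?_
          have hg0 : 0 ≤ g i (ω i).2 := by
            rw [hg]
            exact le_min zero_le_one (hal _ _ _ _)
          by_cases hb : (ω i).1 = true
          · rw [if_pos hb]
            refine max_le ?_ (by linarith)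
            have h5 := hlow2 ω hω i hb
            have h6 := hmo i ω hω
            have h7 := hv i (rem i (cf ω))
            have h8 := hv i (cf ω)
            rw [hg]
            simp only
            rcases le_total 1 (al i (rem i (cf (o i))) i (ω i).2) with h9 | h9
            · rw [min_eq_left h9]
              linarith
            · rw [min_eq_right h9]
              linarith
          · rw [if_neg hb]
            linarith
        rw [sum_add_distrib, sum_const, card_univ, nsmul_eq_mul] at h3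
        rw [hμ]
        linarith
      rw [icp h2, mul_one]
      have := mul_nonneg (hw0 ω) (ic0 (μ ≤ |∑ i, sg (ω i).1 * c i|))
      linarith
  -- the sum of the weights of the positions
  have huw : ∑ u : ι → P, uw L u = 1 := by
    have h1 := hwF fun _ _ => 1
    simp only [mul_one] at h1
    rw [hw1, sum_const, card_univ, nsmul_eq_mul, Fintype.card_fun, Fintype.card_bool] at h1
    push_cast at h1
    rw [mul_div_cancel_left₀ _ (by positivity)] at h1
    exact h1.symm
  have hA : ∑ ω : ι → Bool × P, wt L ω * ic (μ ≤ |∑ i, sg (ω i).1 * c i|) ≤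
      2 * Real.exp (-(ε ^ 2 * Fintype.card ι / 8)) := by
    have h1 := hwF fun b _ => ic (μ ≤ |∑ i, sg (b i) * c i|)
    simp only at h1
    rw [h1]
    have h2 : ∑ b : ι → Bool, ∑ u : ι → P, uw L u * ic (μ ≤ |∑ i, sg (b i) * c i|) =
        ((univ.filter fun b : ι → Bool => μ ≤ |∑ i, sg (b i) * c i|).card : ℝ) := by
      rw [card_filter]
      push_cast
      refine sum_congr rfl fun b _ => ?_
      rw [← sum_mul, huw, one_mul]
      unfold ic
      congr
    rw [h2, div_le_iff₀ (by positivity)]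
    refine (hHFS ι c μ hcc hμ0).trans (le_of_eq ?_)
    have h3 : 2 * μ ^ 2 / (Fintype.card ι : ℝ) = ε ^ 2 * Fintype.card ι / 8 := by
      rw [hμ]
      rcases eq_or_ne (Fintype.card ι : ℝ) 0 with h | h
      · rw [h]; norm_num
      · field_simp
        norm_num
    rw [h3]
    ring
  have hB : ∑ ω : ι → Bool × P, wt L ω * ic (μ ≤ ∑ i, g i (ω i).2) ≤
      Real.exp (-(ε ^ 2 * Fintype.card ι / 8)) := by
    refine (hEXM ι P L g (ε / 16) μ hLn (fun i u => ?_) fun i => ?_).trans ?_
    · rw [hg]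
      exact ⟨le_min zero_le_one (hal _ _ _ _), min_le_left _ _⟩
    · have h1 : ∑ u ∈ L i, g i u ≤ W := by
        refine le_trans ?_ (hals i (rem i (cf (o i))))
        refine (sum_le_sum fun u _ => ?_).trans
          (sum_le_sum_of_subset_of_nonneg (subset_univ (L i)) fun u _ _ => hal _ _ _ _)
        rw [hg]
        exact min_le_right _ _
      have h2 : (M : ℝ) ≤ (L i).card := by exact_mod_cast hM i
      nlinarith
    · refine Real.exp_le_exp.2 ?_
      rw [hμ]
      have : ε ^ 2 * Fintype.card ι ≤ ε * Fintype.card ι := by nlinarith [mul_nonneg hε.le hn0]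
      linarith
  calc _ ≤ ∑ ω : ι → Bool × P, (wt L ω * ic (μ ≤ |∑ i, sg (ω i).1 * c i|) +
        wt L ω * ic (μ ≤ ∑ i, g i (ω i).2)) := sum_le_sum fun ω _ => hev ω
    _ ≤ 2 * Real.exp (-(ε ^ 2 * Fintype.card ι / 8)) +
        Real.exp (-(ε ^ 2 * Fintype.card ι / 8)) := by
        rw [sum_add_distrib]
        exact add_le_add hA hB
    _ = _ := by ring

end

end Pool.Agent.H86.XZ
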