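import Pool.Agent.H18.XZ.TE

/-!
# Row DNP: the value of a protocol with few coins as a disjunction of conjunctions of examinations
-/

set_option autoImplicit false

namespace Pool.Agent.H86.XZ

open Finset Pool.Agent.H6.NB Pool.Agent.H70.OQ Pool.Agent.H66.IQ Pool.Agent.H18.XZ

/-- The value is nonnegative. -/
theorem dnp_nonneg {k : ℕ} (O : List Bool → Bool) (G : Prot k) : 0 ≤ G.val O := by
  induction G with
  | test T => simp only [Prot.val]; split_ifs <;> norm_num
  | coin l r hl hr => simp only [Prot.val]; linarith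
  | say l r hl hr => simp only [Prot.val]; exact le_max_of_le_left hl

/-- The value is at most one. -/
theorem dnp_le {k : ℕ} (O : List Bool → Bool) (G : Prot k) : G.val O ≤ 1 := by
  induction G with
  | test T => simp only [Prot.val]; split_ifs <;> norm_num
  | coin l r hl hr => simp only [Prot.val]; linarith
  | say l r hl hr => simp only [Prot.val]; exact max_le hl hr

/-- The value is a multiple of `2 ^ (-μ)`. -/
theorem dnp_dya {k : ℕ} (O : List Bool → Bool) (G : Prot k) :
    ∀ μ : ℕ, coins G ≤ μ → ∃ t : ℕ, 2 ^ μ * G.val O = (t : ℝ) := by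
  induction G with
  | test T =>
    intro μ _
    simp only [Prot.val]
    split_ifs
    · exact ⟨2 ^ μ, by push_cast; ring⟩
    · exact ⟨0, by simp⟩
  | coin l r hl hr =>
    intro μ h
    simp only [coins] at h
    obtain ⟨ν, rfl⟩ : ∃ ν, μ = ν + 1 := ⟨μ - 1, by omega⟩
    obtain ⟨a, ha⟩ := hl ν (by omega)
    obtain ⟨b, hb⟩ := hr ν (by omega)
    refine ⟨a + b, ?_⟩
    push_cast
    rw [← ha, ← hb]
    simp only [Prot.val]
    ring
  | say l r hl hr =>
    intro μ h
    simp only [coins] at h
    simp only [Prot.val]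
    rcases max_cases (l.val O) (r.val O) with ⟨e, _⟩ | ⟨e, _⟩
    · rw [e]; exact hl μ (by omega)
    · rw [e]; exact hr μ (by omega)

/-- The list of the unions of a conjunction of `F₁` and a conjunction of `F₂`. -/
def dnpMul {α : Type} (F₁ F₂ : List (List α)) : List (List α) :=
  F₁.flatMap fun A => F₂.map fun B => A ++ B

theorem dnpMul_length {α : Type} (F₁ F₂ : List (List α)) :
    (dnpMul F₁ F₂).length = F₁.length * F₂.length := by
  unfold dnpMul
  induction F₁ with
  | nil => simp
  | cons a F ih => simp only [List.flatMap_cons, List.length_append, List.length_map, ih,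
      List.length_cons]; ring

theorem mem_dnpMul {α : Type} (F₁ F₂ : List (List α)) (C : List α) :
    C ∈ dnpMul F₁ F₂ ↔ ∃ A ∈ F₁, ∃ B ∈ F₂, A ++ B = C := by
  unfold dnpMul
  simp only [List.mem_flatMap, List.mem_map]

theorem dnp_flat {α : Type} (f : ℕ → List α) (N : ℕ) (hf : ∀ i, (f i).length ≤ N) (n : ℕ) :
    ((List.range n).flatMap f).length ≤ n * N := by
  induction n with
  | zero => simp
  | succ n ih =>
    rw [List.range_succ, List.flatMap_append, List.length_append]
    simp only [List.flatMap_cons, List.flatMap_nil, List.append_nil]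
    have := hf n
    nlinarith

/-- The induction. -/
theorem dnp_main {k : ℕ} (m : ℕ) (G : Prot k) : ∀ (v μ : ℕ), G.moves ≤ v → G.Tests m →
    coins G ≤ μ → ∀ t : ℕ,
    ∃ F : List (List (Exam k)), F.length ≤ 2 ^ (2 ^ (μ + 1) * (v + μ + 2)) ∧
      (∀ A ∈ F, A.length ≤ 2 ^ μ ∧ ∀ T ∈ A, T.depth ≤ m ∧ T.Small m) ∧
      ∀ O : List Bool → Bool,
        (t : ℝ) ≤ 2 ^ μ * G.val O ↔ ∃ A ∈ F, ∀ T ∈ A, T.eval O = true := by
  induction G with
  | test T =>
    intro v μ _ hT _ t
    rcases Nat.eq_zero_or_pos t with rfl | ht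
    · refine ⟨[[]], by simpa using Nat.one_le_two_pow, by simp, fun O => ?_⟩
      have := dnp_nonneg O (Prot.test T)
      simp only [List.mem_singleton, exists_eq_left, List.not_mem_nil, IsEmpty.forall_iff,
        implies_true, iff_true, Nat.cast_zero]
      positivity
    · by_cases h : t ≤ 2 ^ μ
      · refine ⟨[[T]], by simpa using Nat.one_le_two_pow, ?_, fun O => ?_⟩
        · intro A hA
          rw [List.mem_singleton] at hA
          subst hA
          refine ⟨by simpa using Nat.one_le_two_pow, ?_⟩
          intro S hS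
          rw [List.mem_singleton] at hS
          subst hS
          exact hT
        · simp only [List.mem_singleton, exists_eq_left, forall_eq, Prot.val]
          split_ifs with hh
          · simp only [mul_one, iff_true, hh]
            exact_mod_cast h
          · refine iff_of_false ?_ hh
            rw [mul_zero, not_le]
            exact_mod_cast ht
      · refine ⟨[], by simp, by simp, fun O => ?_⟩
        simp only [List.not_mem_nil, false_and, exists_false, iff_false, not_le]
        have h1 := dnp_le O (Prot.test T)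
        have h2 : ((2 : ℝ) ^ μ) < t := by exact_mod_cast not_le.mp h
        have h3 : (0 : ℝ) < 2 ^ μ := by positivity
        nlinarith
  | say l r hl hr =>
    intro v μ hv hT hc t
    simp only [Prot.moves] at hv
    simp only [coins] at hc
    obtain ⟨w, rfl⟩ : ∃ w, v = w + 1 := ⟨v - 1, by omega⟩
    obtain ⟨F₁, h1, h2, h3⟩ := hl w μ (by omega) hT.1 (by omega) t
    obtain ⟨F₂, g1, g2, g3⟩ := hr w μ (by omega) hT.2 (by omega) t
    refine ⟨F₁ ++ F₂, ?_, ?_, fun O => ?_⟩
    · rw [List.length_append]
      calc F₁.length + F₂.length ≤ 2 ^ (2 ^ (μ + 1) * (w + μ + 2)) + 2 ^ (2 ^ (μ + 1) * (w + μ + 2)) :=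
            add_le_add h1 g1
        _ = 2 ^ (2 ^ (μ + 1) * (w + μ + 2) + 1) := by ring
        _ ≤ 2 ^ (2 ^ (μ + 1) * (w + 1 + μ + 2)) := by
            apply Nat.pow_le_pow_right (by norm_num)
            have : 1 ≤ 2 ^ (μ + 1) := Nat.one_le_two_pow
            nlinarith
    · intro A hA
      rcases List.mem_append.mp hA with h | h
      · exact h2 A h
      · exact g2 A h
    · simp only [Prot.val]
      have e : (t : ℝ) ≤ 2 ^ μ * max (l.val O) (r.val O) ↔
          (t : ℝ) ≤ 2 ^ μ * l.val O ∨ (t : ℝ) ≤ 2 ^ μ * r.val O := by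
        rw [mul_max_of_nonneg _ _ (by positivity), le_max_iff]
      rw [e, h3 O, g3 O]
      simp only [List.mem_append, or_and_right, exists_or]
  | coin l r hl hr =>
    intro v μ hv hT hc t
    simp only [Prot.moves] at hv
    simp only [coins] at hc
    obtain ⟨w, rfl⟩ : ∃ w, v = w + 1 := ⟨v - 1, by omega⟩
    obtain ⟨ν, rfl⟩ : ∃ ν, μ = ν + 1 := ⟨μ - 1, by omega⟩
    by_cases h : t ≤ 2 ^ (ν + 1)
    · choose F₁ h1 h2 h3 using fun t => hl w ν (by omega) hT.1 (by omega) t
      choose F₂ g1 g2 g3 using fun t => hr w ν (by omega) hT.2 (by omega) t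
      refine ⟨(List.range (t + 1)).flatMap fun i => dnpMul (F₁ i) (F₂ (t - i)), ?_, ?_,
        fun O => ?_⟩
      · calc ((List.range (t + 1)).flatMap fun i => dnpMul (F₁ i) (F₂ (t - i))).length
            ≤ (t + 1) * (2 ^ (2 ^ (ν + 1) * (w + ν + 2)) * 2 ^ (2 ^ (ν + 1) * (w + ν + 2))) := by
              apply dnp_flat
              intro i
              rw [dnpMul_length]
              exact Nat.mul_le_mul (h1 i) (g1 (t - i))
          _ ≤ 2 ^ (ν + 2) *
              (2 ^ (2 ^ (ν + 1) * (w + ν + 2)) * 2 ^ (2 ^ (ν + 1) * (w + ν + 2))) := by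
              apply Nat.mul_le_mul_right
              have : 1 ≤ 2 ^ (ν + 1) := Nat.one_le_two_pow
              have e : 2 ^ (ν + 2) = 2 ^ (ν + 1) + 2 ^ (ν + 1) := by ring
              omega
          _ = 2 ^ (ν + 2 + (2 ^ (ν + 1) * (w + ν + 2) + 2 ^ (ν + 1) * (w + ν + 2))) := by
              rw [← pow_add, ← pow_add]
          _ ≤ 2 ^ (2 ^ (ν + 1 + 1) * (w + 1 + (ν + 1) + 2)) := by
              apply Nat.pow_le_pow_right (by norm_num)
              have e : 2 ^ (ν + 1 + 1) = 2 ^ (ν + 1) + 2 ^ (ν + 1) := by ring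
              have e2 : ν + 2 ≤ 2 ^ (ν + 1 + 1) := (Nat.lt_two_pow_self).le
              have e3 : 2 ^ (ν + 1 + 1) * (w + 1 + (ν + 1) + 2) =
                (2 ^ (ν + 1) * (w + ν + 2) + 2 ^ (ν + 1) * (w + ν + 2)) + 2 ^ (ν + 1 + 1) * 2 := by
                ring
              omega
      · intro A hA
        obtain ⟨i, _, hi⟩ := List.mem_flatMap.mp hA
        obtain ⟨B, hB, C, hC, rfl⟩ := (mem_dnpMul _ _ _).mp hi
        obtain ⟨b1, b2⟩ := h2 i B hB
        obtain ⟨c1, c2⟩ := g2 (t - i) C hC
        refine ⟨?_, ?_⟩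
        · rw [List.length_append, pow_succ]
          omega
        · intro T hT'
          rcases List.mem_append.mp hT' with h | h
          · exact b2 T h
          · exact c2 T h
      · have e : (t : ℝ) ≤ 2 ^ (ν + 1) * (Prot.coin l r).val O ↔
            ∃ i ∈ List.range (t + 1), ((i : ℕ) : ℝ) ≤ 2 ^ ν * l.val O ∧
              ((t - i : ℕ) : ℝ) ≤ 2 ^ ν * r.val O := by
          simp only [Prot.val, List.mem_range]
          constructor
          · intro hh
            obtain ⟨a, ha⟩ := dnp_dya O l ν (by omega)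
            have hh' : (t : ℝ) ≤ 2 ^ ν * l.val O + 2 ^ ν * r.val O := by
              have : (2 : ℝ) ^ (ν + 1) * ((l.val O + r.val O) / 2) =
                2 ^ ν * l.val O + 2 ^ ν * r.val O := by ring
              linarith
            rcases le_or_gt t a with hta | hta
            · refine ⟨t, by omega, ?_, ?_⟩
              · rw [ha]; exact_mod_cast hta
              · rw [Nat.sub_self, Nat.cast_zero]
                have := dnp_nonneg O r
                positivity
            · refine ⟨a, by omega, le_of_eq ha.symm, ?_⟩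
              rw [Nat.cast_sub hta.le, ← ha]
              linarith
          · rintro ⟨i, hi, h4, h5⟩
            have hit : i ≤ t := by omega
            rw [Nat.cast_sub hit] at h5
            have : (2 : ℝ) ^ (ν + 1) * ((l.val O + r.val O) / 2) =
                2 ^ ν * l.val O + 2 ^ ν * r.val O := by ring
            linarith
        rw [e]
        constructor
        · rintro ⟨i, hi, h4, h5⟩
          obtain ⟨B, hB, hB'⟩ := (h3 i O).mp h4
          obtain ⟨C, hC, hC'⟩ := (g3 (t - i) O).mp h5
          refine ⟨B ++ C, List.mem_flatMap.mpr ⟨i, hi, (mem_dnpMul _ _ _).mpr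
            ⟨B, hB, C, hC, rfl⟩⟩, ?_⟩
          intro T hT'
          rcases List.mem_append.mp hT' with h | h
          · exact hB' T h
          · exact hC' T h
        · rintro ⟨A, hA, hA'⟩
          obtain ⟨i, hi, hi'⟩ := List.mem_flatMap.mp hA
          obtain ⟨B, hB, C, hC, rfl⟩ := (mem_dnpMul _ _ _).mp hi'
          refine ⟨i, hi, (h3 i O).mpr ⟨B, hB, fun T hT' => hA' T (List.mem_append_left _ hT')⟩,
            (g3 (t - i) O).mpr ⟨C, hC, fun T hT' => hA' T (List.mem_append_right _ hT')⟩⟩
    · refine ⟨[], by simp, by simp, fun O => ?_⟩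
      simp only [List.not_mem_nil, false_and, exists_false, iff_false, not_le]
      have h1 := dnp_le O (Prot.coin l r)
      have h2 : ((2 : ℝ) ^ (ν + 1)) < t := by exact_mod_cast not_le.mp h
      have h3 : (0 : ℝ) < 2 ^ (ν + 1) := by positivity
      nlinarith

/-- DNP. -/
theorem pf_DNP : T_DNP := fun _ m μ G hG hc t _ =>
  dnp_main m G m μ hG.1 hG.2 hc t

end Pool.Agent.H86.XZ
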